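import Pool.Agent.Q277.RBLin

/-!
# Three-dimensional grids have unbounded reduced bandwidth

The `2m² × 2m² × 2m²` grid has `K_{N,N}` with `N = m³` as an `O(m²)`-shallow minor: the horizontal
planes at even heights are cut into `m` strips in one direction, those at odd heights into `m`
strips in the other direction. All planes have holes at the points with two odd coordinates, through
which vertical lines pass that belong to the branch sets of the planes at odd heights.
So grids do not have linear expansion, but `K_{7,7}`-free graphs of bounded reduced bandwidth have.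
-/

set_option autoImplicit false

namespace Pool.Agent.Results.MP_1dbc65_co.ThreeDimensionalGrids

open Pool.Agent.Q277.RB Pool.Agent.Q277.RBLin

/-- `x` and `y` differ by 1 -/
def Next {n : ℕ} (x y : Fin n) : Prop := x.val + 1 = y.val ∨ y.val + 1 = x.val

/-- the three-dimensional grid: two vertices are adjacent if they differ by 1 in one coordinate and
agree in the other two coordinates -/
def grid (a b c : ℕ) : SimpleGraph (Fin a × Fin b × Fin c) where
  Adj u v := (Next u.1 v.1 ∧ u.2.1 = v.2.1 ∧ u.2.2 = v.2.2) ∨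
    (u.1 = v.1 ∧ Next u.2.1 v.2.1 ∧ u.2.2 = v.2.2) ∨
    (u.1 = v.1 ∧ u.2.1 = v.2.1 ∧ Next u.2.2 v.2.2)
  symm := ⟨by
    rintro u v (⟨h1, h2, h3⟩ | ⟨h1, h2, h3⟩ | ⟨h1, h2, h3⟩)
    · exact Or.inl ⟨h1.symm, h2.symm, h3.symm⟩
    · exact Or.inr (Or.inl ⟨h1.symm, h2.symm, h3.symm⟩)
    · exact Or.inr (Or.inr ⟨h1.symm, h2.symm, h3.symm⟩)⟩
  loopless := ⟨by
    rintro u (⟨h, -, -⟩ | ⟨-, h, -⟩ | ⟨-, -, h⟩) <;> rcases h with h | h <;> omega⟩

/-- vertices have degree at most 6 -/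
theorem deg_le {a b c : ℕ} (u : Fin a × Fin b × Fin c) (Y : Finset (Fin a × Fin b × Fin c))
    (h : ∀ v ∈ Y, (grid a b c).Adj u v) : Y.card ≤ 6 := by
  classical
  let f : Fin a × Fin b × Fin c → ℤ × ℤ × ℤ := fun v =>
    ((v.1.val : ℤ) - u.1.val, (v.2.1.val : ℤ) - u.2.1.val, (v.2.2.val : ℤ) - u.2.2.val)
  have hcard : Y.card ≤ ({(1, 0, 0), (-1, 0, 0), (0, 1, 0), (0, -1, 0), (0, 0, 1), (0, 0, -1)} :
      Finset (ℤ × ℤ × ℤ)).card := by
    apply Finset.card_le_card_of_injOn f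
    · intro v hv
      have hadj := h v hv
      have key : f v = (1, 0, 0) ∨ f v = (-1, 0, 0) ∨ f v = (0, 1, 0) ∨ f v = (0, -1, 0) ∨
          f v = (0, 0, 1) ∨ f v = (0, 0, -1) := by
        rcases hadj with ⟨h1, h2, h3⟩ | ⟨h1, h2, h3⟩ | ⟨h1, h2, h3⟩
        · have e2 : u.2.1.val = v.2.1.val := congrArg Fin.val h2
          have e3 : u.2.2.val = v.2.2.val := congrArg Fin.val h3
          rcases h1 with h1 | h1
          · left
            exact Prod.ext (by simp only [f]; omega) (Prod.ext (by simp only [f]; omega)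
              (by simp only [f]; omega))
          · right; left
            exact Prod.ext (by simp only [f]; omega) (Prod.ext (by simp only [f]; omega)
              (by simp only [f]; omega))
        · have e1 : u.1.val = v.1.val := congrArg Fin.val h1
          have e3 : u.2.2.val = v.2.2.val := congrArg Fin.val h3
          rcases h2 with h2 | h2
          · right; right; left
            exact Prod.ext (by simp only [f]; omega) (Prod.ext (by simp only [f]; omega)
              (by simp only [f]; omega))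
          · right; right; right; left
            exact Prod.ext (by simp only [f]; omega) (Prod.ext (by simp only [f]; omega)
              (by simp only [f]; omega))
        · have e1 : u.1.val = v.1.val := congrArg Fin.val h1
          have e2 : u.2.1.val = v.2.1.val := congrArg Fin.val h2
          rcases h3 with h3 | h3
          · right; right; right; right; left
            exact Prod.ext (by simp only [f]; omega) (Prod.ext (by simp only [f]; omega)
              (by simp only [f]; omega))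
          · right; right; right; right; right
            exact Prod.ext (by simp only [f]; omega) (Prod.ext (by simp only [f]; omega)
              (by simp only [f]; omega))
      rw [Finset.mem_coe]
      simp only [Finset.mem_insert, Finset.mem_singleton]
      exact key
    · intro v _ v' _ hvv
      obtain ⟨⟨v1, hv1⟩, ⟨v2, hv2⟩, ⟨v3, hv3⟩⟩ := v
      obtain ⟨⟨w1, hw1⟩, ⟨w2, hw2⟩, ⟨w3, hw3⟩⟩ := v'
      simp only [f, Prod.mk.injEq] at hvv
      obtain ⟨e1, e2, e3⟩ := hvv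
      exact Prod.ext (Fin.ext (by simp only; omega)) (Prod.ext (Fin.ext (by simp only; omega))
        (Fin.ext (by simp only; omega)))
  refine hcard.trans ?_
  decide

theorem no_K77 (a b c : ℕ) (X Y : Finset (Fin a × Fin b × Fin c))
    (h : ∀ x ∈ X, ∀ y ∈ Y, (grid a b c).Adj x y) : X.card < 7 ∨ Y.card < 7 := by
  by_contra hcon
  push Not at hcon
  obtain ⟨x, hx⟩ := Finset.card_pos.1 (by omega : 0 < X.card)
  have := deg_le x Y (h x hx)
  omega

section Reach

variable {V : Type} {G : SimpleGraph V} {S : Set V}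

/-- `v` is reached from `u` in at most `l` steps inside `S` -/
def RS (G : SimpleGraph V) (S : Set V) (l : ℕ) (u v : V) : Prop :=
  ∃ w : G.Walk u v, w.length ≤ l ∧ ∀ y ∈ w.support, y ∈ S

theorem RS.refl {u : V} (hu : u ∈ S) : RS G S 0 u u :=
  ⟨SimpleGraph.Walk.nil, by simp, by
    intro y hy
    rw [SimpleGraph.Walk.support_nil, List.mem_singleton] at hy
    rw [hy]; exact hu⟩

theorem RS.edge {u v : V} (hu : u ∈ S) (hv : v ∈ S) (h : G.Adj u v) : RS G S 1 u v :=
  ⟨SimpleGraph.Walk.cons h SimpleGraph.Walk.nil, by simp, by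
    intro y hy
    simp only [SimpleGraph.Walk.support_cons, SimpleGraph.Walk.support_nil, List.mem_cons,
      List.not_mem_nil, or_false] at hy
    rcases hy with rfl | rfl
    · exact hu
    · exact hv⟩

theorem RS.trans {l l' : ℕ} {u v x : V} (h : RS G S l u v) (h' : RS G S l' v x) :
    RS G S (l + l') u x := by
  obtain ⟨w, hw, hs⟩ := h
  obtain ⟨w', hw', hs'⟩ := h'
  refine ⟨w.append w', ?_, ?_⟩
  · rw [SimpleGraph.Walk.length_append]; omega
  · intro y hy
    rw [SimpleGraph.Walk.mem_support_append_iff] at hy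
    rcases hy with hy | hy
    · exact hs y hy
    · exact hs' y hy

theorem RS.symm {l : ℕ} {u v : V} (h : RS G S l u v) : RS G S l v u := by
  obtain ⟨w, hw, hs⟩ := h
  refine ⟨w.reverse, by rw [SimpleGraph.Walk.length_reverse]; exact hw, ?_⟩
  intro y hy
  rw [SimpleGraph.Walk.support_reverse, List.mem_reverse] at hy
  exact hs y hy

theorem RS.mono {l l' : ℕ} (hl : l ≤ l') {u v : V} (h : RS G S l u v) : RS G S l' u v := by
  obtain ⟨w, hw, hs⟩ := h
  exact ⟨w, hw.trans hl, hs⟩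

end Reach

section Lines

variable {a b c : ℕ} (P : ℕ → ℕ → ℕ → Prop)

/-- the set of grid points satisfying `P` -/
def pts (a b c : ℕ) (P : ℕ → ℕ → ℕ → Prop) : Set (Fin a × Fin b × Fin c) :=
  {v | P v.1.val v.2.1.val v.2.2.val}

theorem lineX (X d Y Z : ℕ) (hX : X + d < a) (hY : Y < b) (hZ : Z < c)
    (h : ∀ e ≤ d, P (X + e) Y Z) :
    RS (grid a b c) (pts a b c P) d (⟨X, by omega⟩, ⟨Y, hY⟩, ⟨Z, hZ⟩)
      (⟨X + d, hX⟩, ⟨Y, hY⟩, ⟨Z, hZ⟩) := by
  induction d with
  | zero => exact RS.refl (by simpa [pts] using h 0 le_rfl)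
  | succ d ih =>
    refine (ih (by omega) (fun e he => h e (by omega))).trans (RS.edge (h d (by omega))
      (h (d + 1) le_rfl) ?_)
    exact Or.inl ⟨Or.inl (by simp only; omega), rfl, rfl⟩

theorem lineY (X Y d Z : ℕ) (hX : X < a) (hY : Y + d < b) (hZ : Z < c)
    (h : ∀ e ≤ d, P X (Y + e) Z) :
    RS (grid a b c) (pts a b c P) d (⟨X, hX⟩, ⟨Y, by omega⟩, ⟨Z, hZ⟩)
      (⟨X, hX⟩, ⟨Y + d, hY⟩, ⟨Z, hZ⟩) := by
  induction d with
  | zero => exact RS.refl (by simpa [pts] using h 0 le_rfl)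
  | succ d ih =>
    refine (ih (by omega) (fun e he => h e (by omega))).trans (RS.edge (h d (by omega))
      (h (d + 1) le_rfl) ?_)
    exact Or.inr (Or.inl ⟨rfl, Or.inl (by simp only; omega), rfl⟩)

theorem lineZ (X Y Z d : ℕ) (hX : X < a) (hY : Y < b) (hZ : Z + d < c)
    (h : ∀ e ≤ d, P X Y (Z + e)) :
    RS (grid a b c) (pts a b c P) d (⟨X, hX⟩, ⟨Y, hY⟩, ⟨Z, by omega⟩)
      (⟨X, hX⟩, ⟨Y, hY⟩, ⟨Z + d, hZ⟩) := by
  induction d with
  | zero => exact RS.refl (by simpa [pts] using h 0 le_rfl)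
  | succ d ih =>
    refine (ih (by omega) (fun e he => h e (by omega))).trans (RS.edge (h d (by omega))
      (h (d + 1) le_rfl) ?_)
    exact Or.inr (Or.inr ⟨rfl, rfl, Or.inl (by simp only; omega)⟩)

/-- lines in both directions, with end points given by arbitrary numbers -/
theorem segX (X X' Y Z : ℕ) (hX : X < a) (hX' : X' < a) (hY : Y < b) (hZ : Z < c)
    (h : ∀ T, min X X' ≤ T → T ≤ max X X' → P T Y Z) :
    RS (grid a b c) (pts a b c P) (max X X' - min X X') (⟨X, hX⟩, ⟨Y, hY⟩, ⟨Z, hZ⟩)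
      (⟨X', hX'⟩, ⟨Y, hY⟩, ⟨Z, hZ⟩) := by
  rcases le_total X X' with hle | hle
  · obtain ⟨d, rfl⟩ := Nat.exists_eq_add_of_le hle
    refine (lineX P X d Y Z hX' hY hZ (fun e he => h _ (by omega) (by omega))).mono (by omega)
  · obtain ⟨d, rfl⟩ := Nat.exists_eq_add_of_le hle
    refine (lineX P X' d Y Z hX hY hZ (fun e he => h _ (by omega) (by omega))).symm.mono (by omega)

theorem segY (X Y Y' Z : ℕ) (hX : X < a) (hY : Y < b) (hY' : Y' < b) (hZ : Z < c)
    (h : ∀ T, min Y Y' ≤ T → T ≤ max Y Y' → P X T Z) :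
    RS (grid a b c) (pts a b c P) (max Y Y' - min Y Y') (⟨X, hX⟩, ⟨Y, hY⟩, ⟨Z, hZ⟩)
      (⟨X, hX⟩, ⟨Y', hY'⟩, ⟨Z, hZ⟩) := by
  rcases le_total Y Y' with hle | hle
  · obtain ⟨d, rfl⟩ := Nat.exists_eq_add_of_le hle
    refine (lineY P X Y d Z hX hY' hZ (fun e he => h _ (by omega) (by omega))).mono (by omega)
  · obtain ⟨d, rfl⟩ := Nat.exists_eq_add_of_le hle
    refine (lineY P X Y' d Z hX hY hZ (fun e he => h _ (by omega) (by omega))).symm.mono (by omega)

theorem segZ (X Y Z Z' : ℕ) (hX : X < a) (hY : Y < b) (hZ : Z < c) (hZ' : Z' < c)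
    (h : ∀ T, min Z Z' ≤ T → T ≤ max Z Z' → P X Y T) :
    RS (grid a b c) (pts a b c P) (max Z Z' - min Z Z') (⟨X, hX⟩, ⟨Y, hY⟩, ⟨Z, hZ⟩)
      (⟨X, hX⟩, ⟨Y, hY⟩, ⟨Z', hZ'⟩) := by
  rcases le_total Z Z' with hle | hle
  · obtain ⟨d, rfl⟩ := Nat.exists_eq_add_of_le hle
    refine (lineZ P X Y Z d hX hY hZ' (fun e he => h _ (by omega) (by omega))).mono (by omega)
  · obtain ⟨d, rfl⟩ := Nat.exists_eq_add_of_le hle
    refine (lineZ P X Y Z' d hX hY hZ (fun e he => h _ (by omega) (by omega))).symm.mono (by omega)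

end Lines

section Minor

/-- strips of the planes at even heights -/
def RowP (m y i : ℕ) (X Y Z : ℕ) : Prop :=
  Y / (2 * m) = y ∧ Z = 2 * i ∧ ¬ (X % 2 = 1 ∧ Y % 2 = 1)

/-- strips of the planes at odd heights, together with vertical lines -/
def ColP (m x a b : ℕ) (X Y Z : ℕ) : Prop :=
  X / (2 * m) = x ∧ ((¬ (X % 2 = 1 ∧ Y % 2 = 1) ∧ Z = 2 * (a * m + b) + 1) ∨
    (X % (2 * m) = 2 * a + 1 ∧ Y % (2 * m) = 2 * b + 1))

/-- the branch sets -/
def br (m : ℕ) : (Fin m × Fin (m * m)) ⊕ (Fin m × Fin m × Fin m) →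
    Set (Fin (2 * m * m) × Fin (2 * m * m) × Fin (2 * m * m)) :=
  Sum.elim (fun q => pts _ _ _ (RowP m q.1 q.2)) (fun q => pts _ _ _ (ColP m q.1 q.2.1 q.2.2))

theorem mod2 (m X : ℕ) : (X % (2 * m)) % 2 = X % 2 := Nat.mod_mod_of_dvd X (Dvd.intro m rfl)

theorem div_bounds {m X x : ℕ} (hm : 1 ≤ m) (h : X / (2 * m) = x) :
    2 * m * x ≤ X ∧ X < 2 * m * x + 2 * m := by
  have h1 := Nat.div_add_mod X (2 * m)
  have h2 := Nat.mod_lt X (show 0 < 2 * m by omega)
  rw [h] at h1
  omega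

theorem div_of_bounds {m X x : ℕ} (h1 : 2 * m * x ≤ X) (h2 : X < 2 * m * x + 2 * m) :
    X / (2 * m) = x := by
  apply Nat.div_eq_of_lt_le
  · rw [Nat.mul_comm]; exact h1
  · have : (x + 1) * (2 * m) = 2 * m * x + 2 * m := by ring
    rw [this]; exact h2

theorem row_rad (m : ℕ) (hm : 1 ≤ m) (y i : ℕ) (hy : y < m) (hi : i < m * m) :
    ∃ c ∈ pts (2 * m * m) (2 * m * m) (2 * m * m) (RowP m y i),
      ∀ v ∈ pts (2 * m * m) (2 * m * m) (2 * m * m) (RowP m y i),
        RS (grid (2 * m * m) (2 * m * m) (2 * m * m)) (pts _ _ _ (RowP m y i))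
          (4 * (m * m) + 2 * m + 1) c v := by
  have hn : 2 * m * m = 2 * (m * m) := by ring
  have hmm : 1 ≤ m * m := Nat.mul_pos hm hm
  have hyb : 2 * m * y + 2 * m ≤ 2 * (m * m) := by
    have : m * (y + 1) ≤ m * m := Nat.mul_le_mul_left m hy
    nlinarith
  have h2my : (2 * m * y) % 2 = 0 := by rw [Nat.mul_assoc]; exact Nat.mul_mod_right 2 _
  refine ⟨(⟨0, by omega⟩, ⟨2 * m * y, by omega⟩, ⟨2 * i, by omega⟩), ?_, ?_⟩
  · refine ⟨div_of_bounds le_rfl (by simp only; omega), rfl, ?_⟩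
    simp
  rintro ⟨⟨X, hX⟩, ⟨Y, hY⟩, ⟨Z, hZ⟩⟩ ⟨h1, h2, h3⟩
  simp only at h1 h2 h3
  subst h2
  obtain ⟨hb1, hb2⟩ := div_bounds hm h1
  apply RS.symm
  by_cases hX2 : X % 2 = 1
  · have hY2 : Y % 2 = 0 := by omega
    have s1 := segX (a := 2 * m * m) (b := 2 * m * m) (c := 2 * m * m) (RowP m y i) X 0 Y (2 * i)
      hX (by omega) hY hZ (fun T _ _ => ⟨h1, rfl, by omega⟩)
    have s2 := segY (a := 2 * m * m) (b := 2 * m * m) (c := 2 * m * m) (RowP m y i) 0 Y
      (2 * m * y) (2 * i) (by omega) hY (by omega) hZ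
      (fun T hT1 hT2 => ⟨div_of_bounds (by omega) (by omega), rfl, by omega⟩)
    exact (s1.trans s2).mono (by omega)
  · have s1 := segY (a := 2 * m * m) (b := 2 * m * m) (c := 2 * m * m) (RowP m y i) X Y
      (2 * m * y) (2 * i) hX hY (by omega) hZ
      (fun T hT1 hT2 => ⟨div_of_bounds (by omega) (by omega), rfl, by omega⟩)
    have s2 := segX (a := 2 * m * m) (b := 2 * m * m) (c := 2 * m * m) (RowP m y i) X 0
      (2 * m * y) (2 * i) hX (by omega) (by omega) hZ
      (fun T _ _ => ⟨div_of_bounds le_rfl (by omega), rfl, by omega⟩)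
    exact (s1.trans s2).mono (by omega)

theorem col_rad (m : ℕ) (hm : 1 ≤ m) (x a b : ℕ) (hx : x < m) (ha : a < m) (hb : b < m) :
    ∃ c ∈ pts (2 * m * m) (2 * m * m) (2 * m * m) (ColP m x a b),
      ∀ v ∈ pts (2 * m * m) (2 * m * m) (2 * m * m) (ColP m x a b),
        RS (grid (2 * m * m) (2 * m * m) (2 * m * m)) (pts _ _ _ (ColP m x a b))
          (4 * (m * m) + 2 * m + 1) c v := by
  have hn : 2 * m * m = 2 * (m * m) := by ring
  have hmm : 1 ≤ m * m := Nat.mul_pos hm hm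
  have hxb : 2 * m * x + 2 * m ≤ 2 * (m * m) := by
    have : m * (x + 1) ≤ m * m := Nat.mul_le_mul_left m hx
    nlinarith
  have hκ : a * m + b < m * m := by
    have : (a + 1) * m ≤ m * m := Nat.mul_le_mul_right m ha
    nlinarith
  obtain ⟨κ, hκe⟩ : ∃ κ, κ = a * m + b := ⟨_, rfl⟩
  rw [← hκe] at hκ
  have h2mx : (2 * m * x) % 2 = 0 := by rw [Nat.mul_assoc]; exact Nat.mul_mod_right 2 _
  -- points of the plane
  have plane : ∀ (X Y : ℕ) (hX : X < 2 * m * m) (hY : Y < 2 * m * m), X / (2 * m) = x →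
      ¬ (X % 2 = 1 ∧ Y % 2 = 1) →
      RS (grid (2 * m * m) (2 * m * m) (2 * m * m)) (pts _ _ _ (ColP m x a b))
        (2 * (m * m) + 2 * m) (⟨X, hX⟩, ⟨Y, hY⟩, ⟨2 * κ + 1, by omega⟩)
        (⟨2 * m * x, by omega⟩, ⟨0, by omega⟩, ⟨2 * κ + 1, by omega⟩) := by
    intro X Y hX hY h1 h3
    obtain ⟨hb1, hb2⟩ := div_bounds hm h1
    by_cases hY2 : Y % 2 = 1
    · have s1 := segY (a := 2 * m * m) (b := 2 * m * m) (c := 2 * m * m) (ColP m x a b) X Y 0
        (2 * κ + 1) hX hY (by omega) (by omega)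
        (fun T hT1 hT2 => ⟨h1, Or.inl ⟨by omega, by rw [hκe]⟩⟩)
      have s2 := segX (a := 2 * m * m) (b := 2 * m * m) (c := 2 * m * m) (ColP m x a b) X
        (2 * m * x) 0 (2 * κ + 1) hX (by omega) (by omega) (by omega)
        (fun T _ _ => ⟨div_of_bounds (by omega) (by omega), Or.inl ⟨by omega, by rw [hκe]⟩⟩)
      exact (s1.trans s2).mono (by omega)
    · have s1 := segX (a := 2 * m * m) (b := 2 * m * m) (c := 2 * m * m) (ColP m x a b) X
        (2 * m * x) Y (2 * κ + 1) hX (by omega) hY (by omega)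
        (fun T _ _ => ⟨div_of_bounds (by omega) (by omega), Or.inl ⟨by omega, by rw [hκe]⟩⟩)
      have s2 := segY (a := 2 * m * m) (b := 2 * m * m) (c := 2 * m * m) (ColP m x a b)
        (2 * m * x) Y 0 (2 * κ + 1) (by omega) hY (by omega) (by omega)
        (fun T hT1 hT2 => ⟨div_of_bounds le_rfl (by omega), Or.inl ⟨by omega, by rw [hκe]⟩⟩)
      exact (s1.trans s2).mono (by omega)
  refine ⟨(⟨2 * m * x, by omega⟩, ⟨0, by omega⟩, ⟨2 * κ + 1, by omega⟩), ?_, ?_⟩
  · refine ⟨div_of_bounds le_rfl (by simp only; omega), Or.inl ⟨?_, by simp only [hκe]⟩⟩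
    simp only
    omega
  rintro ⟨⟨X, hX⟩, ⟨Y, hY⟩, ⟨Z, hZ⟩⟩ ⟨h1, ⟨h2, h3⟩ | ⟨h2, h3⟩⟩
  · simp only at h1 h2 h3
    subst h3
    apply RS.symm
    have := plane X Y hX hY h1 h2
    simp only [hκe] at this ⊢
    exact this.mono (by omega)
  · simp only at h1 h2 h3
    apply RS.symm
    obtain ⟨hb1, hb2⟩ := div_bounds hm h1
    have hdm := Nat.div_add_mod X (2 * m)
    rw [h1, h2] at hdm
    have hX2 : X % 2 = 1 := by rw [← mod2 m X, h2]; omega
    have s1 := segZ (a := 2 * m * m) (b := 2 * m * m) (c := 2 * m * m) (ColP m x a b) X Y Z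
      (2 * κ + 1) hX hY hZ (by omega) (fun T _ _ => ⟨h1, Or.inr ⟨h2, h3⟩⟩)
    have s3 := plane (X - 1) Y (by omega) hY (div_of_bounds (by omega) (by omega)) (by omega)
    have s2 : RS (grid (2 * m * m) (2 * m * m) (2 * m * m)) (pts _ _ _ (ColP m x a b)) 1
        (⟨X, hX⟩, ⟨Y, hY⟩, ⟨2 * κ + 1, by omega⟩)
        (⟨X - 1, by omega⟩, ⟨Y, hY⟩, ⟨2 * κ + 1, by omega⟩) := by
      refine RS.edge ⟨h1, Or.inr ⟨h2, h3⟩⟩
        ⟨div_of_bounds (by simp only; omega) (by simp only; omega),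
          Or.inl ⟨by simp only; omega, by simp only [hκe]⟩⟩ ?_
      exact Or.inl ⟨Or.inr (by simp only; omega), rfl, rfl⟩
    exact ((s1.trans s2).trans s3).mono (by omega)

theorem isMinor (m : ℕ) (hm : 1 ≤ m) :
    IsShallowMinor (4 * (m * m) + 2 * m + 1)
      (completeBipartiteGraph (Fin m × Fin (m * m)) (Fin m × Fin m × Fin m))
      (grid (2 * m * m) (2 * m * m) (2 * m * m)) := by
  have rc : ∀ (y i x a b X Y Z : ℕ), RowP m y i X Y Z → ColP m x a b X Y Z → False := by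
    rintro y i x a b X Y Z ⟨-, h1, h2⟩ ⟨-, ⟨-, h3⟩ | ⟨h3, h4⟩⟩
    · omega
    · have e1 : X % 2 = 1 := by rw [← mod2 m X, h3]; omega
      have e2 : Y % 2 = 1 := by rw [← mod2 m Y, h4]; omega
      exact h2 ⟨e1, e2⟩
  refine ⟨br m, ?_, ?_, ?_⟩
  · rintro (⟨y, i⟩ | ⟨x, a, b⟩) (⟨y', i'⟩ | ⟨x', a', b'⟩) hne
    · rw [Set.disjoint_left]
      rintro v ⟨h1, h2, -⟩ ⟨h3, h4, -⟩
      apply hne
      congr 1
      refine Prod.ext (Fin.ext ?_) (Fin.ext ?_)
      · exact h1.symm.trans h3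
      · simp only at h2 h4 ⊢
        omega
    · rw [Set.disjoint_left]
      intro v h1 h2
      exact rc _ _ _ _ _ _ _ _ h1 h2
    · rw [Set.disjoint_left]
      intro v h1 h2
      exact rc _ _ _ _ _ _ _ _ h2 h1
    · rw [Set.disjoint_left]
      rintro v ⟨h1, h2⟩ ⟨h3, h4⟩
      apply hne
      have hab : a.val = a'.val ∧ b.val = b'.val := by
        simp only at h2 h4
        rcases h2 with ⟨h2, h5⟩ | ⟨h2, h5⟩ <;> rcases h4 with ⟨h4, h6⟩ | ⟨h4, h6⟩
        · have e : a.val * m + b.val = a'.val * m + b'.val := by omega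
          have hb := b.isLt
          have hb' := b'.isLt
          have e1 : (a.val * m + b.val) / m = a.val := by
            rw [Nat.mul_comm, Nat.mul_add_div (by omega), Nat.div_eq_of_lt hb, Nat.add_zero]
          have e2 : (a'.val * m + b'.val) / m = a'.val := by
            rw [Nat.mul_comm, Nat.mul_add_div (by omega), Nat.div_eq_of_lt hb', Nat.add_zero]
          have e3 : a.val = a'.val := by rw [← e1, ← e2, e]
          refine ⟨e3, ?_⟩
          rw [e3] at e
          omega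
        · exfalso
          have e1 := mod2 m v.1.val
          have e2 := mod2 m v.2.1.val
          rw [h4] at e1
          rw [h6] at e2
          omega
        · exfalso
          have e1 := mod2 m v.1.val
          have e2 := mod2 m v.2.1.val
          rw [h2] at e1
          rw [h5] at e2
          omega
        · omega
      congr 1
      exact Prod.ext (Fin.ext (h1.symm.trans h3)) (Prod.ext (Fin.ext hab.1) (Fin.ext hab.2))
  · rintro (⟨y, i⟩ | ⟨x, a, b⟩)
    · exact row_rad m hm y i y.isLt i.isLt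
    · exact col_rad m hm x a b x.isLt a.isLt b.isLt
  · have key : ∀ (q : Fin m × Fin (m * m)) (q' : Fin m × Fin m × Fin m),
        ∃ v ∈ br m (Sum.inl q), ∃ v' ∈ br m (Sum.inr q'),
          (grid (2 * m * m) (2 * m * m) (2 * m * m)).Adj v v' := by
      rintro ⟨⟨y, hy⟩, ⟨i, hi⟩⟩ ⟨⟨x, hx⟩, ⟨a, ha⟩, ⟨b, hb⟩⟩
      have hn : 2 * m * m = 2 * (m * m) := by ring
      have hxb : 2 * m * x + 2 * m ≤ 2 * (m * m) := by
        have : m * (x + 1) ≤ m * m := Nat.mul_le_mul_left m hx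
        nlinarith
      have hyb : 2 * m * y + 2 * m ≤ 2 * (m * m) := by
        have : m * (y + 1) ≤ m * m := Nat.mul_le_mul_left m hy
        nlinarith
      have h2mx : (2 * m * x) % 2 = 0 := by rw [Nat.mul_assoc]; exact Nat.mul_mod_right 2 _
      refine ⟨(⟨2 * m * x + 2 * a, by omega⟩, ⟨2 * m * y + (2 * b + 1), by omega⟩,
        ⟨2 * i, by omega⟩), ⟨div_of_bounds (by simp only; omega) (by simp only; omega), rfl,
          by simp only; omega⟩,
        (⟨2 * m * x + (2 * a + 1), by omega⟩, ⟨2 * m * y + (2 * b + 1), by omega⟩,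
        ⟨2 * i, by omega⟩), ⟨div_of_bounds (by simp only; omega) (by simp only; omega),
          Or.inr ⟨?_, ?_⟩⟩, ?_⟩
      · simp only
        rw [Nat.mul_add_mod, Nat.mod_eq_of_lt (by omega)]
      · simp only
        rw [Nat.mul_add_mod, Nat.mod_eq_of_lt (by omega)]
      · exact Or.inl ⟨Or.inl (by simp only; omega), rfl, rfl⟩
    rintro (q | q) (q' | q') hadj
    · simp at hadj
    · exact key q q'
    · obtain ⟨v, hv, v', hv', h⟩ := key q' q
      exact ⟨v', hv', v, hv, h.symm⟩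
    · simp at hadj

end Minor

/-- The class of three-dimensional grids has unbounded reduced bandwidth. -/
theorem result : ¬ ∃ k : ℕ, ∀ a b c : ℕ, 1 ≤ a → 1 ≤ b → 1 ≤ c →
    ReducedBandwidthLE (grid a b c) k := by
  rintro ⟨k, hk⟩
  obtain ⟨K, hK⟩ : ∃ K, K = 7 * (12 * k + 1) * (1 + (4 * k + 2) * (2 * k + 4)) := ⟨_, rfl⟩
  obtain ⟨m, hm⟩ : ∃ m, m = 16 * K + 1 := ⟨_, rfl⟩
  have hm1 : 1 ≤ m := by omega
  have hmm : 1 ≤ 2 * m * m := by nlinarith
  have h1 := main (grid (2 * m * m) (2 * m * m) (2 * m * m)) k 7 (4 * (m * m) + 2 * m + 1)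
    (by norm_num) (hk _ _ _ hmm hmm hmm) (no_K77 _ _ _) _ (isMinor m hm1)
  have h2 : (completeBipartiteGraph (Fin m × Fin (m * m)) (Fin m × Fin m × Fin m)).edgeSet.ncard =
      m ^ 3 * m ^ 3 := by
    rw [Set.ncard, SimpleGraph.encard_edgeSet_completeBipartiteGraph]
    simp only [ENat.card_eq_coe_fintype_card, Fintype.card_prod, Fintype.card_fin]
    rw [← Nat.cast_mul, ENat.toNat_natCast]
    ring
  rw [← hK, h2] at h1
  simp only [Fintype.card_sum, Fintype.card_prod, Fintype.card_fin] at h1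
  have h3 : m ^ 3 * m ^ 3 ≤ m ^ 3 * (2 * (K * (4 * (m * m) + 2 * m + 1 + 1))) := by
    calc m ^ 3 * m ^ 3 ≤ _ := h1
      _ = _ := by ring
  have h4 : m ^ 3 ≤ 2 * (K * (4 * (m * m) + 2 * m + 1 + 1)) :=
    Nat.le_of_mul_le_mul_left h3 (by positivity)
  have h5 : 4 * (m * m) + 2 * m + 1 + 1 ≤ 8 * (m * m) := by nlinarith
  have h6 : m ^ 3 ≤ (16 * K) * (m * m) := by
    calc m ^ 3 ≤ 2 * (K * (4 * (m * m) + 2 * m + 1 + 1)) := h4
      _ ≤ 2 * (K * (8 * (m * m))) := by gcongr
      _ = (16 * K) * (m * m) := by ring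
  have h7 : m * (m * m) ≤ (16 * K) * (m * m) := by
    calc m * (m * m) = m ^ 3 := by ring
      _ ≤ _ := h6
  have h8 : m ≤ 16 * K := Nat.le_of_mul_le_mul_right h7 (Nat.mul_pos hm1 hm1)
  omega

end Pool.Agent.Results.MP_1dbc65_co.ThreeDimensionalGrids
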